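import Pool.Agent.Helper22.TW.Stmts

set_option autoImplicit false

namespace Pool.Agent.Helper22.TW

open Pool.Agent.Helper14.BSC Polynomial

/-- an element of `k'` is algebraic over `k` through `j` -/
theorem dwn_alg {F k Ω : Type} [Field F] [Field k] [Field Ω] [Algebra F Ω] [Algebra k Ω]
    {t : k} {D : Sec k Ω} (B : Ext (F := F) t D) (c : B.k') :
    ∃ G : k[X], G ≠ 0 ∧ G.eval₂ B.j c = 0 := by
  obtain ⟨G, hG, h⟩ := B.algk c
  refine ⟨G, hG, ?_⟩
  apply (algebraMap B.k' Ω).injective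
  rw [map_zero, Polynomial.hom_eval₂]
  have h2 : (algebraMap B.k' Ω).comp B.j = algebraMap k Ω := RingHom.ext B.hj
  rw [h2, ← Polynomial.aeval_def]
  exact h

/-- extension of embeddings to algebraic extensions -/
theorem dwn_ext {k k' : Type} [Field k] [Field k'] (j : k →+* k')
    (halg : ∀ c : k', ∃ G : k[X], G ≠ 0 ∧ G.eval₂ j c = 0) (p : ℕ) [Fact p.Prime]
    (σ : k →+* ℂ_[p]) : ∃ σ' : k' →+* ℂ_[p], ∀ c, σ' (j c) = σ c := by
  letI : Algebra k k' := j.toAlgebra
  letI : Algebra k ℂ_[p] := σ.toAlgebra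
  haveI : Algebra.IsAlgebraic k k' := ⟨fun c => by
    obtain ⟨G, hG, h⟩ := halg c
    refine ⟨G, hG, ?_⟩
    rw [Polynomial.aeval_def]
    exact h⟩
  let τ : k' →ₐ[k] ℂ_[p] := IsAlgClosed.lift
  exact ⟨τ.toRingHom, fun c => τ.commutes c⟩

/-- the images are algebraic over `ℚ_p` -/
theorem dwn_int {k k' : Type} [Field k] [Field k'] (j : k →+* k')
    (halg : ∀ c : k', ∃ G : k[X], G ≠ 0 ∧ G.eval₂ j c = 0) (p : ℕ) [Fact p.Prime]
    (σ : k →+* ℂ_[p]) (σ' : k' →+* ℂ_[p]) (h : ∀ c, σ' (j c) = σ c)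
    (E : IntermediateField ℚ_[p] ℂ_[p]) (hE : FiniteDimensional ℚ_[p] E) (hm : ∀ x, σ x ∈ E)
    (c : k') : IsIntegral ℚ_[p] (σ' c) := by
  haveI := hE
  obtain ⟨G, hG, hG0⟩ := halg c
  have h1 : IsAlgebraic E (σ' c) := by
    let s : k →+* E := RingHom.codRestrict σ E.toSubfield hm
    refine ⟨G.map s, ?_, ?_⟩
    · exact (Polynomial.map_ne_zero_iff s.injective).2 hG
    · rw [Polynomial.aeval_def, Polynomial.eval₂_map]
      have h3 : (algebraMap E ℂ_[p]).comp s = σ'.comp j := by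
        ext x
        show σ x = σ' (j x)
        rw [h]
      rw [h3, ← Polynomial.hom_eval₂, hG0, map_zero]
  have h2 : IsAlgebraic ℚ_[p] (σ' c) := by
    haveI : Algebra.IsAlgebraic ℚ_[p] E := inferInstance
    exact h1.restrictScalars ℚ_[p]
  exact h2.isIntegral

/-- the image of a finitely generated field with algebraic values -/
theorem dwn_fin {F' k' : Type} [Field F'] [Field k'] [CharZero F'] [Algebra F' k'] (t' : k')
    (hg : Gen F' k' t') (hfg : (⊤ : IntermediateField ℚ F').FG) (p : ℕ) [Fact p.Prime]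
    (σ' : k' →+* ℂ_[p]) (hint : ∀ c, IsIntegral ℚ_[p] (σ' c)) : FinI σ' := by
  obtain ⟨S, hS⟩ := hfg
  let T : Set ℂ_[p] := ((fun a : F' => σ' (algebraMap F' k' a)) '' (S : Set F')) ∪ {σ' t'}
  have hTf : T.Finite := (S.finite_toSet.image _).union (Set.finite_singleton _)
  haveI : Finite T := hTf
  have hfin : FiniteDimensional ℚ_[p] (IntermediateField.adjoin ℚ_[p] T) := by
    apply IntermediateField.finiteDimensional_adjoin
    rintro x (⟨a, _, rfl⟩ | hx)
    · exact hint _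
    · rw [Set.mem_singleton_iff] at hx
      rw [hx]
      exact hint _
  refine ⟨IntermediateField.adjoin ℚ_[p] T, hfin, ?_⟩
  have h1 : ∀ a : F', σ' (algebraMap F' k' a) ∈ IntermediateField.adjoin ℚ_[p] T := by
    intro a
    have ha : a ∈ IntermediateField.adjoin ℚ (S : Set F') := by rw [hS]; trivial
    induction ha using IntermediateField.adjoin_induction with
    | mem x hx =>
      apply IntermediateField.subset_adjoin
      exact Or.inl ⟨x, hx, rfl⟩
    | algebraMap q =>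
      have : σ' (algebraMap F' k' (algebraMap ℚ F' q)) = algebraMap ℚ_[p] ℂ_[p] (q : ℚ_[p]) := by
        simp
      rw [this]
      exact IntermediateField.algebraMap_mem _ _
    | add x y _ _ hx hy => rw [map_add, map_add]; exact add_mem hx hy
    | inv x _ hx => rw [map_inv₀, map_inv₀]; exact inv_mem hx
    | mul x y _ _ hx hy => rw [map_mul, map_mul]; exact mul_mem hx hy
  intro c
  have hc : c ∈ IntermediateField.adjoin F' ({t'} : Set k') := by rw [hg.2]; trivial
  induction hc using IntermediateField.adjoin_induction with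
  | mem x hx =>
    rw [Set.mem_singleton_iff] at hx
    rw [hx]
    apply IntermediateField.subset_adjoin
    exact Or.inr rfl
  | algebraMap a => exact h1 a
  | add x y _ _ hx hy => rw [map_add]; exact add_mem hx hy
  | inv x _ hx => rw [map_inv₀]; exact inv_mem hx
  | mul x y _ _ hx hy => rw [map_mul]; exact mul_mem hx hy

theorem st_DWN (hU : ST_UNQ) (hR : ST_RPL) (hRK : ST_RK) : ST_DWN := by
  intro F k Ω _ _ _ _ _ _ _ _ _ _ t D B p _ σ hσ P
  obtain ⟨E, hE, hm⟩ := hσ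
  obtain ⟨σ', hσ'⟩ := dwn_ext B.j (dwn_alg B) p σ
  have hint := dwn_int B.j (dwn_alg B) p σ σ' hσ' E hE hm
  have hF : FinI σ' := dwn_fin B.t' B.gen B.fg p σ' hint
  refine ⟨σ', hF, hσ', ?_⟩
  obtain ⟨E', hE', hm'⟩ := hF
  obtain ⟨P', -⟩ := hRK B.k' Ω B.D' p σ' E' hE' hm'
  refine ⟨P', ?_⟩
  obtain ⟨P1, hP1⟩ := hR k B.k' Ω B.j D B.D' B.hj B.fix p σ' P'
  have hc : σ'.comp B.j = σ := RingHom.ext hσ'
  subst hc
  obtain ⟨h1, h2⟩ := hU k Ω D p (σ'.comp B.j) P P1
  intro x x' hxx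
  obtain ⟨h3, h4⟩ := hP1 x x' hxx
  refine ⟨by rw [h1]; exact h3, ?_⟩
  intro hx hx'
  have hx1 : x ∈ P1.C := by rw [← h1]; exact hx
  rw [h2 x hx hx1, h4 hx1 hx']

end Pool.Agent.Helper22.TW
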