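import Pool.Agent.Helper22.TW.Stmts

/-!
# Module ODD: additive reduction kills the infinitely `2`-divisible points
-/

set_option autoImplicit false

namespace Pool.Agent.Helper22.TW

theorem odd_third : ∀ i j : Fin 3, i ≠ j → ∃ l : Fin 3, l ≠ i ∧ l ≠ j := by decide

theorem odd_sym {M : Type} [CommRing M] (F : Fin 3 → M) (i j l : Fin 3) (h1 : i ≠ j) (h2 : l ≠ i)
    (h3 : l ≠ j) : F 0 + F 1 + F 2 = F i + F j + F l ∧ F 0 * F 1 * F 2 = F i * F j * F l ∧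
      F 0 * F 1 + F 0 * F 2 + F 1 * F 2 = F i * F j + F i * F l + F j * F l := by
  have key : ∀ i j l : Fin 3, i ≠ j → l ≠ i → l ≠ j →
      (i = 0 ∧ j = 1 ∧ l = 2) ∨ (i = 0 ∧ j = 2 ∧ l = 1) ∨ (i = 1 ∧ j = 0 ∧ l = 2) ∨
      (i = 1 ∧ j = 2 ∧ l = 0) ∨ (i = 2 ∧ j = 0 ∧ l = 1) ∨ (i = 2 ∧ j = 1 ∧ l = 0) := by decide
  rcases key i j l h1 h2 h3 with ⟨rfl, rfl, rfl⟩ | ⟨rfl, rfl, rfl⟩ | ⟨rfl, rfl, rfl⟩ |
    ⟨rfl, rfl, rfl⟩ | ⟨rfl, rfl, rfl⟩ | ⟨rfl, rfl, rfl⟩ <;>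
  exact ⟨by ring, by ring, by ring⟩

/-- doubling formula with base point `e i` -/
theorem odd_dbl {M : Type} [Field M] [CharZero M] {e : Fin 3 → M} (he : Function.Injective e)
    {x y : M} (h : Eqn e x y) (hy : y ≠ 0) (i j l : Fin 3) (h1 : i ≠ j) (h2 : l ≠ i)
    (h3 : l ≠ j) :
    ∃ (x₃ y₃ : M) (h₃ : Eqn e x₃ y₃), EE.pt he x y h + EE.pt he x y h = EE.pt he x₃ y₃ h₃ ∧
      (x₃ - e i) * (4 * ((x - e i) * (x - e j) * (x - e l))) =
        ((x - e i) ^ 2 - (e j - e i) * (e l - e i)) ^ 2 := by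
  obtain ⟨x₃, y₃, h₃, hadd, hx, -⟩ := EE.add_self he h hy
  refine ⟨x₃, y₃, h₃, hadd, ?_⟩
  obtain ⟨s1, s2, s3⟩ := odd_sym (fun k => x - e k) i j l h1 h2 h3
  obtain ⟨t1, -, -⟩ := odd_sym e i j l h1 h2 h3
  have hE : y ^ 2 = (x - e i) * (x - e j) * (x - e l) := by
    have : y ^ 2 = (x - e 0) * (x - e 1) * (x - e 2) := h
    rw [this]
    exact s2
  have s3' : (x - e 0) * (x - e 1) + (x - e 0) * (x - e 2) + (x - e 1) * (x - e 2) =
    (x - e i) * (x - e j) + (x - e i) * (x - e l) + (x - e j) * (x - e l) := s3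
  rw [s3', t1] at hx
  have hx2 : x₃ * (4 * y ^ 2) = ((x - e i) * (x - e j) + (x - e i) * (x - e l) +
      (x - e j) * (x - e l)) ^ 2 + (e i + e j + e l - 2 * x) * (4 * y ^ 2) := by
    rw [hx]
    field_simp
    ring
  rw [hE] at hx2
  linear_combination hx2

theorem odd_two : ‖(2 : ℂ_[2])‖ = 1 / 2 := by
  have h1 := PadicComplex.norm_extends' 2 (2 : ℚ_[2])
  have h2 : ((2 : ℚ_[2]) : ℂ_[2]) = 2 := by
    exact map_ofNat (algebraMap ℚ_[2] ℂ_[2]) 2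
  rw [h2] at h1
  have h3 : ‖(2 : ℚ_[2])‖ = (2 : ℝ)⁻¹ := by
    have := Padic.norm_p (p := 2)
    simpa using this
  rw [h1, h3]
  norm_num

theorem odd_sub {a b : ℂ_[2]} (h : ‖b‖ < ‖a‖) : ‖a - b‖ = ‖a‖ := by
  have h1 : ‖a + -b‖ = max ‖a‖ ‖-b‖ :=
    IsUltrametricDist.norm_add_eq_max_of_norm_ne_norm (by rw [norm_neg]; exact h.ne')
  rw [norm_neg, max_eq_left h.le] at h1
  rw [sub_eq_add_neg]
  exact h1

/-- doubling multiplies the distance to `b i` by four -/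
theorem odd_step {E : IntermediateField ℚ_[2] ℂ_[2]} {b : Fin 3 → E} (hb : Function.Injective b)
    (i j : Fin 3) (hij : i ≠ j)
    (hA : ∀ l, ‖((b l : E) : ℂ_[2]) - (b i : E)‖ ≤ ‖((b j : E) : ℂ_[2]) - (b i : E)‖)
    {x y : E} (h : Eqn b x y)
    (hX : ‖((b j : E) : ℂ_[2]) - (b i : E)‖ < ‖(x : ℂ_[2]) - (b i : E)‖) :
    ∃ (x' y' : E) (h' : Eqn b x' y'), EE.pt hb x y h + EE.pt hb x y h = EE.pt hb x' y' h' ∧
      ‖(x' : ℂ_[2]) - (b i : E)‖ = 4 * ‖(x : ℂ_[2]) - (b i : E)‖ := by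
  obtain ⟨l, hli, hlj⟩ := odd_third i j hij
  set X : ℂ_[2] := (x : ℂ_[2]) - (b i : E) with hXd
  set A : ℂ_[2] := ((b j : E) : ℂ_[2]) - (b i : E) with hAd
  set A' : ℂ_[2] := ((b l : E) : ℂ_[2]) - (b i : E) with hA'd
  have hA' : ‖A'‖ ≤ ‖A‖ := hA l
  have hX0 : 0 < ‖X‖ := lt_of_le_of_lt (norm_nonneg _) hX
  have n1 : ‖(x : ℂ_[2]) - (b j : E)‖ = ‖X‖ := by
    have : (x : ℂ_[2]) - (b j : E) = X - A := by
      rw [hXd, hAd]
      ring
    rw [this]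
    exact odd_sub hX
  have n2 : ‖(x : ℂ_[2]) - (b l : E)‖ = ‖X‖ := by
    have : (x : ℂ_[2]) - (b l : E) = X - A' := by
      rw [hXd, hA'd]
      ring
    rw [this]
    exact odd_sub (lt_of_le_of_lt hA' hX)
  have hprod : ‖((x : ℂ_[2]) - (b i : E)) * ((x : ℂ_[2]) - (b j : E)) *
      ((x : ℂ_[2]) - (b l : E))‖ = ‖X‖ ^ 3 := by
    rw [norm_mul, norm_mul, n1, n2, ← hXd]
    ring
  have hy : y ≠ 0 := by
    intro hy
    have hE : y ^ 2 = (x - b i) * (x - b j) * (x - b l) := by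
      have h0 : y ^ 2 = (x - b 0) * (x - b 1) * (x - b 2) := h
      rw [h0]
      exact (odd_sym (fun k => x - b k) i j l hij hli hlj).2.1
    rw [hy] at hE
    have hE2 : ((x : ℂ_[2]) - (b i : E)) * ((x : ℂ_[2]) - (b j : E)) *
        ((x : ℂ_[2]) - (b l : E)) = 0 := by
      have := congrArg (fun z : E => (z : ℂ_[2])) hE
      push_cast at this
      rw [← this]
      ring
    rw [hE2, norm_zero] at hprod
    have : 0 < ‖X‖ ^ 3 := pow_pos hX0 3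
    linarith
  obtain ⟨x₃, y₃, h₃, hadd, hform⟩ := odd_dbl hb h hy i j l hij hli hlj
  refine ⟨x₃, y₃, h₃, hadd, ?_⟩
  have hform2 : ((x₃ : ℂ_[2]) - (b i : E)) * (4 * (((x : ℂ_[2]) - (b i : E)) *
      ((x : ℂ_[2]) - (b j : E)) * ((x : ℂ_[2]) - (b l : E)))) = (X ^ 2 - A * A') ^ 2 := by
    have h0 := congrArg (fun z : E => (z : ℂ_[2])) hform
    push_cast at h0
    have h40 : (((4 : E)) : ℂ_[2]) = 4 := rfl
    rw [h40] at h0
    exact h0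
  have hn := congrArg norm hform2
  rw [norm_mul, norm_mul, hprod, norm_pow] at hn
  have h4 : ‖(4 : ℂ_[2])‖ = 1 / 4 := by
    have : (4 : ℂ_[2]) = 2 * 2 := by norm_num
    rw [this, norm_mul, odd_two]
    norm_num
  have hAA : ‖X ^ 2 - A * A'‖ = ‖X‖ ^ 2 := by
    rw [← norm_pow]
    apply odd_sub
    rw [norm_mul, norm_pow]
    calc ‖A‖ * ‖A'‖ ≤ ‖A‖ * ‖A‖ := mul_le_mul_of_nonneg_left hA' (norm_nonneg _)
      _ < ‖X‖ * ‖X‖ := mul_self_lt_mul_self (norm_nonneg _) hX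
      _ = ‖X‖ ^ 2 := by ring
  rw [h4, hAA] at hn
  have h3 : ‖X‖ ^ 3 ≠ 0 := (pow_pos hX0 3).ne'
  have : ‖(x₃ : ℂ_[2]) - (b i : E)‖ * ‖X‖ ^ 3 = 4 * ‖X‖ * ‖X‖ ^ 3 := by
    linear_combination 4 * hn
  exact mul_right_cancel₀ h3 this

theorem odd_iter {E : IntermediateField ℚ_[2] ℂ_[2]} {b : Fin 3 → E} (hb : Function.Injective b)
    (i j : Fin 3) (hij : i ≠ j)
    (hA : ∀ l, ‖((b l : E) : ℂ_[2]) - (b i : E)‖ ≤ ‖((b j : E) : ℂ_[2]) - (b i : E)‖)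
    {x y : E} (h : Eqn b x y)
    (hX : ‖((b j : E) : ℂ_[2]) - (b i : E)‖ < ‖(x : ℂ_[2]) - (b i : E)‖) (m : ℕ) :
    ∃ (x' y' : E) (h' : Eqn b x' y'), (2 ^ m) • EE.pt hb x y h = EE.pt hb x' y' h' ∧
      ‖(x' : ℂ_[2]) - (b i : E)‖ = 4 ^ m * ‖(x : ℂ_[2]) - (b i : E)‖ := by
  induction m with
  | zero => exact ⟨x, y, h, by rw [pow_zero, one_smul], by rw [pow_zero, one_mul]⟩
  | succ m ih =>
    obtain ⟨x', y', h', hp, hn⟩ := ih
    have h4 : (1 : ℝ) ≤ 4 ^ m := one_le_pow₀ (by norm_num)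
    have hX' : ‖((b j : E) : ℂ_[2]) - (b i : E)‖ < ‖(x' : ℂ_[2]) - (b i : E)‖ := by
      rw [hn]
      refine lt_of_lt_of_le hX ?_
      exact le_mul_of_one_le_left (norm_nonneg _) h4
    obtain ⟨x'', y'', h'', hp', hn'⟩ := odd_step hb i j hij hA h' hX'
    refine ⟨x'', y'', h'', ?_, ?_⟩
    · rw [pow_succ, mul_comm, mul_smul, hp, two_smul]
      exact hp'
    · rw [hn', hn]
      ring

theorem st_ODD (hD : ST_DBL) : ST_ODD := by
  intro E b hb i j hij hA hodd P hP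
  by_contra hP0
  have hA0 : 0 < ‖((b j : E) : ℂ_[2]) - (b i : E)‖ := by
    rw [norm_pos_iff, sub_ne_zero]
    intro h
    exact hij (hb (Subtype.ext h)).symm
  obtain ⟨xP, yP, hPe, hPp⟩ := (EE.cases hb P).resolve_left hP0
  -- all halves are far away from `b i`
  have hfar : ∀ Q : EE b, Q + Q ≠ 0 → ∃ (x y : E) (h : Eqn b x y), Q + Q = EE.pt hb x y h ∧
      ‖((b j : E) : ℂ_[2]) - (b i : E)‖ < ‖(x : ℂ_[2]) - (b i : E)‖ := by
    intro Q hQ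
    obtain ⟨x, y, h, hxy⟩ := (EE.cases hb (Q + Q)).resolve_left hQ
    refine ⟨x, y, h, hxy, ?_⟩
    have hsq := hD E b hb x y h Q hxy
    by_contra hle
    rw [not_lt] at hle
    rcases lt_or_eq_of_le hle with hlt | heq
    · obtain ⟨z, hz⟩ := hsq j
      apply hodd z
      have h1 : (x : ℂ_[2]) - (b j : E) = (z : ℂ_[2]) * z := by
        have := congrArg (fun z : E => (z : ℂ_[2])) hz
        push_cast at this
        exact this
      have h2 : ‖(x : ℂ_[2]) - (b j : E)‖ = ‖((b j : E) : ℂ_[2]) - (b i : E)‖ := by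
        have h3 : (x : ℂ_[2]) - (b j : E) =
            -((((b j : E) : ℂ_[2]) - (b i : E)) - ((x : ℂ_[2]) - (b i : E))) := by ring
        rw [h3, norm_neg]
        exact odd_sub hlt
      rw [← h2, h1, norm_mul]
      ring
    · obtain ⟨z, hz⟩ := hsq i
      apply hodd z
      have h1 : (x : ℂ_[2]) - (b i : E) = (z : ℂ_[2]) * z := by
        have := congrArg (fun z : E => (z : ℂ_[2])) hz
        push_cast at this
        exact this
      rw [← heq, h1, norm_mul]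
      ring
  obtain ⟨m, hm⟩ : ∃ m : ℕ, ‖(xP : ℂ_[2]) - (b i : E)‖ <
      4 ^ m * ‖((b j : E) : ℂ_[2]) - (b i : E)‖ := by
    obtain ⟨m, hm⟩ := pow_unbounded_of_one_lt
      (‖(xP : ℂ_[2]) - (b i : E)‖ / ‖((b j : E) : ℂ_[2]) - (b i : E)‖)
      (show (1 : ℝ) < 4 by norm_num)
    exact ⟨m, by rwa [div_lt_iff₀ hA0] at hm⟩
  obtain ⟨Q, hQ⟩ := hP (m + 1)
  have hQ2 : (2 ^ m) • (Q + Q) = P := by
    rw [← hQ, pow_succ, mul_smul, two_smul]
  have hQ0 : Q + Q ≠ 0 := by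
    intro h0
    rw [h0, smul_zero] at hQ2
    exact hP0 hQ2.symm
  obtain ⟨x, y, h, hxy, hn⟩ := hfar Q hQ0
  obtain ⟨x', y', h', hp, hn'⟩ := odd_iter hb i j hij hA h hn m
  rw [hxy, hp, hPp] at hQ2
  have hx' := (EE.pt_inj hb hQ2).1
  rw [← hx', hn'] at hm
  have h4 : (0 : ℝ) < 4 ^ m := by positivity
  have := mul_lt_mul_of_pos_left hn h4
  linarith

end Pool.Agent.Helper22.TW
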